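import Pool.Agent.H68.LCS.Targets

/-!
# Row A_FRP of the board lpq_modules (helper73)
-/

set_option autoImplicit false

namespace Pool.Agent.H73.LCS

open Set Filter Topology
open scoped Pointwise
open Pool.Agent.H93.CP Pool.Agent.H7.LP Pool.Agent.H7.LQ Pool.Agent.H68.LCS

theorem pf_FRP : T_FRP := by
  intro G _ _ _ _ H hH
  set d : ℕ → G := TopologicalSpace.denseSeq G with hd
  have hopen : ∀ a : G, IsOpen {x : G | a * x⁻¹ ∈ H} := fun a =>
    hH.preimage (continuous_const.mul continuous_inv)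
  have hex : ∀ a : G, {i : ℕ | a * (d i)⁻¹ ∈ H}.Nonempty := by
    intro a
    obtain ⟨x, hx⟩ := (TopologicalSpace.denseRange_denseSeq G).exists_mem_open (hopen a)
      ⟨a, by simp [H.one_mem]⟩
    exact ⟨x, hx⟩
  refine ⟨d, fun a => sInf {i : ℕ | a * (d i)⁻¹ ∈ H}, fun a => ?_⟩
  have hmem : ∀ a : G, a * (d (sInf {i : ℕ | a * (d i)⁻¹ ∈ H}))⁻¹ ∈ H := fun a =>
    Nat.sInf_mem (hex a)
  refine ⟨hmem a, ?_⟩
  have heq : {b : G | sInf {i : ℕ | b * (d i)⁻¹ ∈ H} = sInf {i : ℕ | a * (d i)⁻¹ ∈ H}} =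
      {b : G | b * a⁻¹ ∈ H} := by
    ext b
    simp only [mem_ofPred_eq]
    constructor
    · intro h
      have h1 := hmem b
      have h2 := hmem a
      rw [h] at h1
      have h3 := H.mul_mem h1 (H.inv_mem h2)
      have h4 : b * (d (sInf {i : ℕ | a * (d i)⁻¹ ∈ H}))⁻¹ *
          (a * (d (sInf {i : ℕ | a * (d i)⁻¹ ∈ H}))⁻¹)⁻¹ = b * a⁻¹ := by group
      rwa [h4] at h3
    · intro h
      have h1 : {i : ℕ | b * (d i)⁻¹ ∈ H} = {i : ℕ | a * (d i)⁻¹ ∈ H} := by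
        ext i
        simp only [mem_ofPred_eq]
        have h2 : b * (d i)⁻¹ = b * a⁻¹ * (a * (d i)⁻¹) := by group
        rw [h2]
        exact H.mul_mem_cancel_left h
      rw [h1]
  rw [heq]
  exact hH.preimage (continuous_id.mul continuous_const)

end Pool.Agent.H73.LCS
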